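import Pool.Agent.X263.Bd.Fin

/-!
# Bordered integer matrices over group rings of groups with unique products

Let `Γ` be a group with unique products (any two nonempty finite subsets `X`, `Y` of `Γ` have a
product `x y` which can be written in one way only), for example a left-orderable group. Every
invertible matrix `A` over `ℤΓ` whose entries outside of one row and one column are integers is
trivial in the Whitehead group: stabilised by an identity block it is `± g` on one diagonal entry
times a product of commutators. The same holds if the entries outside of one row and one column are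
integral multiples of the group elements `g_i h_j`. In particular all invertible `2 × 2` matrices
with one entry of the form `z g`, `z ∈ ℤ`, `g ∈ Γ`, are trivial in the Whitehead group.
-/

set_option autoImplicit false

namespace Pool.Agent.Results.MP_8f66f0_al.BorderedIntegerMatrices

theorem result (Γ : Type) [Group Γ] [UniqueProds Γ] (n : ℕ)
    (A : (Matrix (Fin n) (Fin n) (MonoidAlgebra ℤ Γ))ˣ) (i₀ j₀ : Fin n) (g h : Fin n → Γ)
    (hA : ∀ i j, i ≠ i₀ → j ≠ j₀ → ∃ z : ℤ,
      (↑A : Matrix (Fin n) (Fin n) (MonoidAlgebra ℤ Γ)) i j = MonoidAlgebra.single (g i * h j) z) :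
    ∃ (m : ℕ) (γ : Γ) (ε : ℤˣ)
      (C : (Matrix (Fin n ⊕ Fin (m + 1)) (Fin n ⊕ Fin (m + 1)) (MonoidAlgebra ℤ Γ))ˣ),
      C ∈ commutator (Matrix (Fin n ⊕ Fin (m + 1)) (Fin n ⊕ Fin (m + 1))
              (MonoidAlgebra ℤ Γ))ˣ ∧
      Matrix.fromBlocks (↑A : Matrix (Fin n) (Fin n) (MonoidAlgebra ℤ Γ))
          (0 : Matrix (Fin n) (Fin (m + 1)) (MonoidAlgebra ℤ Γ))
          (0 : Matrix (Fin (m + 1)) (Fin n) (MonoidAlgebra ℤ Γ))
          (1 : Matrix (Fin (m + 1)) (Fin (m + 1)) (MonoidAlgebra ℤ Γ)) =
        Matrix.diagonal (fun i : Fin n ⊕ Fin (m + 1) =>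
            if i = Sum.inr (0 : Fin (m + 1)) then
              (MonoidAlgebra.single γ ((ε : ℤ)) : MonoidAlgebra ℤ Γ) else 1) *
          (↑C : Matrix (Fin n ⊕ Fin (m + 1)) (Fin n ⊕ Fin (m + 1)) (MonoidAlgebra ℤ Γ)) :=
  TH57.Thr.TT_frozen n A (Pool.Agent.X263.Bd.TT_border A i₀ j₀ g h hA)

end Pool.Agent.Results.MP_8f66f0_al.BorderedIntegerMatrices
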