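import Pool.Agent.X263.PL.Germ
import Pool.Agent.Y72.Un.All

/-!
# Determinants of Whitehead elements of piecewise linear groups

Let `Γ` be a group of increasing piecewise affine bijections, with finitely many pieces, of a
linearly ordered field `K`; for example any group of piecewise linear orientation preserving
homeomorphisms of a compact interval or of the real line. For every invertible matrix `A` over `ℤΓ`
there are a sign `ε` and an element `γ` of `Γ` such that the determinant of `A` in every finite
dimensional representation `ρ` of `Γ` over every field is the determinant `ε ^ d * det ρ(γ)` of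
`ε γ`.
-/

set_option autoImplicit false

namespace Pool.Agent.Results.MP_8f66f0_al.PiecewiseLinearDeterminants

open Pool.Agent.Y72.Log Pool.Agent.Y72.Dt Pool.Agent.Y72.Un H219.Wh

universe u v w

/-- `f : K → K` is piecewise affine with finitely many pieces: there is a finite set `S` such that
`f` is affine on every closed interval which has no point of `S` in its interior. -/
def PiecewiseAffine {K : Type v} [Field K] [LinearOrder K] (f : K → K) : Prop :=
  ∃ S : Finset K, ∀ a b : K, a ≤ b → (∀ s ∈ S, ¬ (a < s ∧ s < b)) →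
    ∃ m c : K, ∀ x, a ≤ x → x ≤ b → f x = m * x + c

theorem result {K : Type v} [Field K] [LinearOrder K] [IsStrictOrderedRing K]
    {Γ : Type u} [Group Γ] (φ : Γ →* (K ≃o K)) (hφ : Function.Injective φ)
    (hPL : ∀ g, PiecewiseAffine (φ g)) {n : ℕ}
    (A : (Matrix (Fin n) (Fin n) (MonoidAlgebra ℤ Γ))ˣ) :
    ∃ ε : ℤ, (ε = 1 ∨ ε = -1) ∧ ∃ γ : Γ, ∀ (L : Type w) [Field L] (d : ℕ)
      (ρ : Γ →* GL (Fin d) L),
      (Matrix.of fun x y : Fin n × Fin d =>
        (A.val x.1 y.1).coeff.sum fun g a => (a : L) * (ρ g).val x.2 y.2).det =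
          (ε : L) ^ d * (ρ γ).val.det := by
  obtain ⟨H, hH, hS⟩ := exists_fg A
  obtain ⟨A', hA'⟩ := exists_sub A H hS
  have : Group.FG H := (Group.fg_iff_subgroup_fg H).2 hH
  have hn : Cn H := Pool.Agent.X263.PL.cn_PL hPL hφ H hH
  refine ⟨DD (trv H ℤ) A'.val, sign_pm A', (gamA A' : H), fun L _ d ρ => ?_⟩
  let ρ' : Γ →* Matrix (Fin d) (Fin d) L := (Units.coeHom _).comp ρ
  have h1 := all_reps_sign hn A' (ρ'.comp H.subtype)
  have h2 : DD (ρ'.comp H.subtype) A'.val = (Matrix.of fun x y : Fin n × Fin d =>
      (A.val x.1 y.1).coeff.sum fun g a => (a : L) * (ρ g).val x.2 y.2).det := by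
    unfold DD
    rw [← blkR_mpU, ← hA']
    congr 1
    ext1 x y
    exact lrG_apply ρ' (A.val x.1 y.1) x.2 y.2
  rw [h2, Int.cast_pow] at h1
  exact h1

end Pool.Agent.Results.MP_8f66f0_al.PiecewiseLinearDeterminants
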