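import Pool.Agent.H23R2.Odd.Sub
import Pool.Agent.X263.PL.Germ

/-!
# Odd cyclic cocycles on integral group rings of piecewise linear groups

Let `G` be a group of increasing piecewise affine bijections, with finitely many pieces, of a
linearly ordered field `K`; for example Thompson's group `F`, or any group of piecewise linear
orientation preserving homeomorphisms of a compact interval or of the real line. For every
invertible matrix `u` over `ℤ[G]` there is `γ ∈ G` such that *every* cycle of odd dimension over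
`ℤ[G]`, with values in an abelian group `M` all of whose nonzero elements are divisible by
finitely many primes only (for example `M = ℤ`), takes the same value on `u` and on `γ`.
-/

set_option autoImplicit false

namespace Pool.Agent.Results.MP_8f66f0_al.PiecewiseLinearOddCycles

open Pool.Agent.H23R2.Ch Pool.Agent.H23R2 Pool.Agent.H23R2.Odd

universe u1 u2 u3 u4 u5

/-- `f : K → K` is piecewise affine with finitely many pieces: there is a finite set `S` such that
`f` is affine on every closed interval which has no point of `S` in its interior. -/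
def PiecewiseAffine {K : Type u5} [Field K] [LinearOrder K] (f : K → K) : Prop :=
  ∃ S : Finset K, ∀ a b : K, a ≤ b → (∀ s ∈ S, ¬ (a < s ∧ s < b)) →
    ∃ m c : K, ∀ x, a ≤ x → x ≤ b → f x = m * x + c

theorem result {K : Type u5} [Field K] [LinearOrder K] [IsStrictOrderedRing K]
    {G : Type u1} [Group G] (φ : G →* (K ≃o K)) (hφ : Function.Injective φ)
    (hPL : ∀ g, PiecewiseAffine (φ g))
    {r : Type u2} [Fintype r] [DecidableEq r]
    (u v : Matrix r r (MonoidAlgebra ℤ G)) (huv : u * v = 1) (hvu : v * u = 1) :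
    ∃ γ : G, ∀ (M : Type u3) [AddCommGroup M],
        (∀ x : M, x ≠ 0 → {p : ℕ | p.Prime ∧ ∃ y : M, p • y = x}.Finite) →
      ∀ (Ω : Type u4) [Ring Ω] (𝒜 : ℕ → Submodule ℤ Ω) [GradedAlgebra 𝒜]
        (δ : Ω →ₗ[ℤ] Ω) (T : Ω →ₗ[ℤ] M) (n : ℕ), IsCycle (2 * n + 1) 𝒜 δ T →
      ∀ (ρ : MonoidAlgebra ℤ G →ₐ[ℤ] Ω), (∀ a, ρ a ∈ 𝒜 0) →
        T (v.map ρ * (u.map ρ).map δ * ((v.map ρ).map δ * (u.map ρ).map δ) ^ n).trace =
          T (ρ (MonoidAlgebra.single γ⁻¹ 1) * δ (ρ (MonoidAlgebra.single γ 1)) *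
            (δ (ρ (MonoidAlgebra.single γ⁻¹ 1)) * δ (ρ (MonoidAlgebra.single γ 1))) ^ n) := by
  have htf : ∀ g : G, ∀ m : ℕ, 0 < m → g ^ m = 1 → g = 1 := fun g m hm h =>
    Pool.Agent.X263.PL.tors_free hφ hPL g m hm h
  obtain ⟨γ, _, hγ⟩ := main_sub u v huv hvu
  refine ⟨γ, ?_⟩
  set H := supGrp u v with hH
  have : Group.FG H := (Group.fg_iff_subgroup_fg H).2 (supGrp_fg u v)
  have hfin := Pool.Agent.X263.PL.finite_bad (Γ := H) (φ := φ.comp H.subtype)
    (fun g => hPL g) (hφ.comp H.subtype_injective)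
  intro M _ hM Ω _ 𝒜 _ δ T n hcyc ρ hρ
  refine hγ {p : ℕ | GoodPrime H p} ?_ M ?_ Ω 𝒜 δ T n hcyc ρ hρ ?_
  · intro p hp
    exact ⟨hp.prime, fun g _ hg => htf g p hp.prime.pos hg⟩
  · intro x hx hcon
    have h1 : {p : ℕ | p.Prime} ⊆ {p : ℕ | p.Prime ∧ ¬ GoodPrime H p} ∪
        ({p : ℕ | p.Prime ∧ ∃ y : M, p • y = x} ∪
          {p : ℕ | p ∈ {p : ℕ | GoodPrime H p} ∧ ¬ ∃ y : M, p • y = x}) := by
      intro p hp
      by_cases h : GoodPrime H p
      · by_cases h2 : ∃ y : M, p • y = x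
        · exact Or.inr (Or.inl ⟨hp, h2⟩)
        · exact Or.inr (Or.inr ⟨h, h2⟩)
      · exact Or.inl ⟨hp, h⟩
    exact Nat.infinite_setOfPred_prime ((hfin.union ((hM x hx).union hcon)).subset h1)
  · rintro g hg ⟨p, hp, hroot⟩
    exfalso
    obtain ⟨x0, hx0, hx0g⟩ := hroot 0
    have hgH : g ∈ H := by
      rw [← hx0g]
      exact Subgroup.pow_mem _ hx0 _
    obtain ⟨k, hk⟩ := hp.div ⟨g, hgH⟩ (fun hc => hg (congrArg Subtype.val hc))
    obtain ⟨x, hx, hxg⟩ := hroot k
    exact hk ⟨x, hx⟩ (Subtype.ext (by simpa using hxg))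

end Pool.Agent.Results.MP_8f66f0_al.PiecewiseLinearOddCycles
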