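import Pool.Agent.X263.PL.Germ
import Pool.Agent.Y72.Un.Tr

/-!
# The Dennis trace of invertible matrices over group rings of piecewise linear groups

Let `Γ` be a group of increasing piecewise affine bijections, with finitely many pieces, of a
linearly ordered field `K`; for example Thompson's group `F`, or any group of piecewise linear
orientation preserving homeomorphisms of a compact interval or of the real line. For every
invertible matrix `A` over `ℤΓ` there is an element `γ` of `Γ` such that the difference of the
Dennis traces of `A` and `γ` in the Hochschild homology group `HH₁(ℤΓ)` is a torsion element which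
is divisible by all positive integers.
-/

set_option autoImplicit false

namespace Pool.Agent.Results.MP_8f66f0_al.PiecewiseLinearTrace

open Pool.Agent.Y72.Un Pool.Agent.H23R2

universe u v w

/-- `f : K → K` is piecewise affine with finitely many pieces: there is a finite set `S` such that
`f` is affine on every closed interval which has no point of `S` in its interior. -/
def PiecewiseAffine {K : Type v} [Field K] [LinearOrder K] (f : K → K) : Prop :=
  ∃ S : Finset K, ∀ a b : K, a ≤ b → (∀ s ∈ S, ¬ (a < s ∧ s < b)) →
    ∃ m c : K, ∀ x, a ≤ x → x ≤ b → f x = m * x + c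

theorem result {K : Type v} [Field K] [LinearOrder K] [IsStrictOrderedRing K]
    {Γ : Type u} [Group Γ] (φ : Γ →* (K ≃o K)) (hφ : Function.Injective φ)
    (hPL : ∀ g, PiecewiseAffine (φ g)) {n : ℕ}
    (A : (Matrix (Fin n) (Fin n) (MonoidAlgebra ℤ Γ))ˣ) :
    ∃ γ : Γ, ∃ k : ℕ, 0 < k ∧ ∀ (M : Type w) [AddCommGroup M] (f : Γ → Γ → M),
      (∀ x y z : Γ, f (x * y) z - f x (y * z) + f (z * x) y = 0) →
      k • ((∑ i, ∑ j, ((A⁻¹).val i j).coeff.sum fun g b =>
          (A.val j i).coeff.sum fun h a => (b * a) • f g h) - f γ⁻¹ γ) = 0 ∧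
      ∀ m : ℕ, 0 < m → ∃ y : M,
        (∑ i, ∑ j, ((A⁻¹).val i j).coeff.sum fun g b =>
          (A.val j i).coeff.sum fun h a => (b * a) • f g h) - f γ⁻¹ γ = m • y :=
  trace_fg (Pool.Agent.X263.PL.cn_PL hPL hφ) A

end Pool.Agent.Results.MP_8f66f0_al.PiecewiseLinearTrace
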